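import Pool.Agent.K1H49.PL.Gen

/-!
# Project PL, general case: dense colours on the tree `2 ^ (< Λ)`
-/

set_option autoImplicit false

namespace Pool.Agent.K1H56.PLG

open Pool.Agent.K1H49.PL

section

variable {Λ : Type} [LinearOrder Λ]

/-- `q` is equal to `p` or above `p` -/
def lev (p q : TI Λ) : Prop := p.1.1 ≤ q.1.1 ∧ ∀ c, c < p.1.1 → q.1.2 c = p.1.2 c

theorem lev_refl (p : TI Λ) : lev p p := ⟨le_rfl, fun _ _ => rfl⟩

theorem lev_trans {p q r : TI Λ} (h1 : lev p q) (h2 : lev q r) : lev p r :=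
  ⟨h1.1.trans h2.1, fun c hc => (h2.2 c (lt_of_lt_of_le hc h1.1)).trans (h1.2 c hc)⟩

theorem tlt_lev {d : Bool} {p q r : TI Λ} (h1 : tlt Λ d p q) (h2 : lev q r) : tlt Λ d p r :=
  ⟨lt_of_lt_of_le h1.1 h2.1, fun c hc => (h2.2 c (hc.trans h1.1)).trans (h1.2.1 c hc),
    (h2.2 _ h1.1).trans h1.2.2⟩

theorem lev_of_tlt {d : Bool} {p q : TI Λ} (h1 : tlt Λ d p q) : lev p q := ⟨h1.1.le, h1.2.1⟩

/-- the conditions on a partial assignment -/
def Ps {C : Type} (f : TI Λ → C) (S : Set (C × TI Λ)) : Prop :=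
  (∀ a ∈ S, ∀ a' ∈ S, a.1 = a'.1 → a = a') ∧
  (∀ a ∈ S, ∀ a' ∈ S, lev a.2 a'.2 ∨ lev a'.2 a.2) ∧
  (∀ a ∈ S, ∀ q', lev a.2 q' → f q' ≠ a.1)

open Classical in
/-- upper bounds -/
theorem exists_ub {C : Type} [Nonempty Λ] (hg : ∀ g : C → Λ, ∃ b, ∀ c, g c < b)
    (f : TI Λ → C) (S : Set (C × TI Λ)) (hS : Ps f S) : ∃ u : TI Λ, ∀ a ∈ S, lev a.2 u := by
  obtain ⟨h1, h2, -⟩ := hS
  obtain ⟨l0⟩ := (inferInstance : Nonempty Λ)
  obtain ⟨b, hb⟩ := hg fun c => if h : ∃ q, (c, q) ∈ S then h.choose.1.1 else l0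
  have hb' : ∀ a ∈ S, a.2.1.1 < b := by
    rintro ⟨c, q⟩ ha
    have hex : ∃ q, (c, q) ∈ S := ⟨q, ha⟩
    have h3 := hb c
    rw [dif_pos hex] at h3
    have h4 := h1 _ hex.choose_spec _ ha rfl
    have h5 : hex.choose = q := congrArg Prod.snd h4
    rw [h5] at h3
    exact h3
  refine ⟨⟨(b, fun x => decide (∃ a ∈ S, x < a.2.1.1 ∧ a.2.1.2 x = true)), ?_⟩, ?_⟩
  · intro x hx
    change decide (∃ a ∈ S, x < a.2.1.1 ∧ a.2.1.2 x = true) = false
    rw [decide_eq_false_iff_not]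
    rintro ⟨a, ha, h3, -⟩
    exact absurd (h3.trans (hb' a ha)) (not_lt.2 hx)
  · intro a ha
    refine ⟨(hb' a ha).le, fun x hx => ?_⟩
    change decide (∃ a ∈ S, x < a.2.1.1 ∧ a.2.1.2 x = true) = a.2.1.2 x
    cases h4 : a.2.1.2 x with
    | true =>
      rw [decide_eq_true_iff]
      exact ⟨a, ha, hx, h4⟩
    | false =>
      rw [decide_eq_false_iff_not]
      rintro ⟨a', ha', h5, h6⟩
      rcases h2 a ha a' ha' with h | h
      · have := h.2 x hx
        rw [h6, h4] at this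
        exact Bool.noConfusion this
      · have := h.2 x h5
        rw [h6, h4] at this
        exact Bool.noConfusion this

/-- a dense colour -/
theorem exists_dense {C : Type} [Nonempty Λ] (hg : ∀ g : C → Λ, ∃ b, ∀ c, g c < b)
    (f : TI Λ → C) : ∃ (c : C) (p : TI Λ), ∀ q, lev p q → ∃ q', lev q q' ∧ f q' = c := by
  by_contra hcon
  have hk : ∀ (c : C) (p : TI Λ), ∃ q, lev p q ∧ ∀ q', lev q q' → f q' ≠ c := by
    intro c p
    by_contra h
    apply hcon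
    refine ⟨c, p, fun q hq => ?_⟩
    by_contra h'
    exact h ⟨q, hq, fun q' h1 h2 => h' ⟨q', h1, h2⟩⟩
  obtain ⟨m, hm⟩ := zorn_subset {S : Set (C × TI Λ) | Ps f S} (by
    intro ch hch hc
    refine ⟨⋃₀ ch, ?_, fun s hs => Set.subset_sUnion_of_mem hs⟩
    have key : ∀ a ∈ ⋃₀ ch, ∀ a' ∈ ⋃₀ ch, ∃ S ∈ ch, a ∈ S ∧ a' ∈ S := by
      rintro a ⟨S, hS, haS⟩ a' ⟨S', hS', haS'⟩
      rcases hc.total hS hS' with h | h
      · exact ⟨S', hS', h haS, haS'⟩
      · exact ⟨S, hS, haS, h haS'⟩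
    refine ⟨fun a ha a' ha' => ?_, fun a ha a' ha' => ?_, fun a ha => ?_⟩
    · obtain ⟨S, hS, h1, h2⟩ := key a ha a' ha'
      exact (hch hS).1 a h1 a' h2
    · obtain ⟨S, hS, h1, h2⟩ := key a ha a' ha'
      exact (hch hS).2.1 a h1 a' h2
    · obtain ⟨S, hS, h1⟩ := ha
      exact (hch hS).2.2 a h1)
  have hmP : Ps f m := hm.prop
  obtain ⟨u, hu⟩ := exists_ub hg f m hmP
  by_cases hex : ∃ q, (f u, q) ∈ m
  · obtain ⟨q, hq⟩ := hex
    exact hmP.2.2 _ hq u (hu _ hq) rfl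
  · obtain ⟨q, h1, h2⟩ := hk (f u) u
    apply hex
    refine ⟨q, ?_⟩
    have hins : Ps f (insert (f u, q) m) := by
      refine ⟨?_, ?_, ?_⟩
      · rintro a (rfl | ha) a' (rfl | ha') h
        · rfl
        · exact absurd ⟨a'.2, by
            have : (f u, a'.2) = a' := Prod.ext h rfl
            rw [this]; exact ha'⟩ hex
        · exact absurd ⟨a.2, by
            have : (f u, a.2) = a := Prod.ext h.symm rfl
            rw [this]; exact ha⟩ hex
        · exact hmP.1 a ha a' ha' h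
      · rintro a (rfl | ha) a' (rfl | ha')
        · exact Or.inl (lev_refl _)
        · exact Or.inr (lev_trans (hu _ ha') h1)
        · exact Or.inl (lev_trans (hu _ ha) h1)
        · exact hmP.2.1 a ha a' ha'
      · rintro a (rfl | ha)
        · exact h2
        · exact hmP.2.2 a ha
    exact hm.le_of_ge hins (Set.subset_insert _ _) (Set.mem_insert _ _)

/-- the immediate successors -/
theorem exists_succ [NoMaxOrder Λ] (q : TI Λ) (d : Bool) : ∃ q' : TI Λ, tlt Λ d q q' := by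
  obtain ⟨b, hb⟩ := exists_gt q.1.1
  refine ⟨⟨(b, fun x => if x < q.1.1 then q.1.2 x else if x = q.1.1 then d else false), ?_⟩,
    hb, ?_, ?_⟩
  · intro x hx
    have h1 : q.1.1 < x := lt_of_lt_of_le hb hx
    change (if x < q.1.1 then q.1.2 x else if x = q.1.1 then d else false) = false
    rw [if_neg (not_lt.2 h1.le), if_neg h1.ne']
  · intro x hx
    change (if x < q.1.1 then q.1.2 x else if x = q.1.1 then d else false) = q.1.2 x
    rw [if_pos hx]
  · change (if q.1.1 < q.1.1 then q.1.2 q.1.1 else if q.1.1 = q.1.1 then d else false) = d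
    rw [if_neg (lt_irrefl _), if_pos rfl]

end

/-- piece COL -/
theorem t_COL : S_COL := by
  intro C Λ _ _ _ _ hg f
  obtain ⟨c, p, hp⟩ := exists_dense hg f
  have hstep : ∀ (q : {q : TI Λ // lev p q ∧ f q = c}) (d : Bool),
      ∃ q' : {q : TI Λ // lev p q ∧ f q = c}, tlt Λ d q.1 q'.1 := by
    rintro ⟨q, h1, h2⟩ d
    obtain ⟨s, hs⟩ := exists_succ q d
    obtain ⟨q', h3, h4⟩ := hp s (lev_trans h1 (lev_of_tlt hs))
    exact ⟨⟨q', lev_trans (lev_trans h1 (lev_of_tlt hs)) h3, h4⟩, tlt_lev hs h3⟩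
  choose nx hnx using hstep
  obtain ⟨q0, h0, h0'⟩ := hp p (lev_refl p)
  have hfold : ∀ (τ : List Bool) (d : Bool) (q : TI Λ) (q1 : {q : TI Λ // lev p q ∧ f q = c}),
      tlt Λ d q q1.1 → tlt Λ d q (τ.foldl nx q1).1 := by
    intro τ
    induction τ with
    | nil => intro d q q1 h; exact h
    | cons e τ ih =>
      intro d q q1 h
      rw [List.foldl_cons]
      exact ih d q _ (tlt_lev h (lev_of_tlt (hnx q1 e)))
  refine ⟨fun π => (π.foldl nx ⟨q0, h0, h0'⟩).1, ?_, c, fun π => (π.foldl nx ⟨q0, h0, h0'⟩).2.2⟩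
  rintro π π' d ⟨τ, rfl⟩
  change tlt Λ d (π.foldl nx ⟨q0, h0, h0'⟩).1 (((π ++ [d]) ++ τ).foldl nx ⟨q0, h0, h0'⟩).1
  rw [List.foldl_append, List.foldl_append]
  exact hfold τ d _ _ (hnx _ d)

end Pool.Agent.K1H56.PLG
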